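import Pool.Agent.J6H85.KS.Modify

/-!
# Prescribed values at primes
-/

set_option autoImplicit false

namespace Pool.Agent.J6H85.KS

open Finset Filter Topology

theorem shift {f : ℕ → ℂ} {C γ : ℝ} (hγ : 0 < γ) (hC : 0 ≤ C)
    (hS : ∀ N : ℕ, 1 ≤ N → ‖S f N‖ ≤ C * (N : ℝ) ^ (-γ)) (N : ℕ) :
    ‖S f N‖ ≤ C * (2 : ℝ) ^ γ * ((N : ℝ) + 1) ^ (-γ) := by
  rcases Nat.eq_zero_or_pos N with h0 | h0
  · subst h0
    simp [S]
    positivity
  · refine (hS N h0).trans ?_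
    have hN : (1 : ℝ) ≤ N := by exact_mod_cast h0
    rw [mul_assoc]
    refine mul_le_mul_of_nonneg_left ?_ hC
    calc (N : ℝ) ^ (-γ) ≤ (((N : ℝ) + 1) / 2) ^ (-γ) :=
          Real.rpow_le_rpow_of_nonpos (by positivity) (by linarith) (by linarith)
      _ = (2 : ℝ) ^ γ * ((N : ℝ) + 1) ^ (-γ) := by
          rw [Real.div_rpow (by positivity) (by norm_num), Real.rpow_neg (by norm_num : (0 : ℝ) ≤ 2),
            div_inv_eq_mul, mul_comm]

theorem tendsto_zero {f : ℕ → ℂ} {C γ : ℝ} (hγ : 0 < γ)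
    (hS : ∀ N : ℕ, 1 ≤ N → ‖∑ n ∈ Finset.Icc 1 N, f n‖ ≤ C * (N : ℝ) ^ (-γ)) :
    Tendsto (fun N : ℕ => ∑ n ∈ Finset.range N, f (n + 1)) atTop (𝓝 0) := by
  rw [tendsto_zero_iff_norm_tendsto_zero]
  have h1 : Tendsto (fun N : ℕ => C * (N : ℝ) ^ (-γ)) atTop (𝓝 0) := by
    have h3 := ((tendsto_rpow_neg_atTop hγ).comp tendsto_natCast_atTop_atTop).const_mul C
    rwa [mul_zero] at h3
  refine squeeze_zero' (Eventually.of_forall fun N => norm_nonneg _) ?_ h1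
  filter_upwards [eventually_ge_atTop 1] with N hN
  have hrange : ∑ n ∈ Finset.range N, f (n + 1) = ∑ n ∈ Finset.Icc 1 N, f n := by
    rw [Finset.range_eq_Ico, Finset.sum_Ico_add' (fun n => f n) 0 N 1]
    rfl
  rw [hrange]
  exact hS N hN

/-- one prime, the closed disc -/
theorem one_prime {f₀ : ℕ → ℂ} {C γ : ℝ} (hγ : 0 < γ) (h1 : f₀ 1 = 1)
    (hmul : ∀ m n : ℕ, 0 < m → 0 < n → f₀ (m * n) = f₀ m * f₀ n)
    (hS : ∀ N : ℕ, 1 ≤ N → ‖∑ n ∈ Finset.Icc 1 N, f₀ n‖ ≤ C * (N : ℝ) ^ (-γ))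
    {β : ℝ} (hβ : 0 < β) (hβγ : β < γ) {p : ℕ} (hp : p.Prime) {z : ℂ} (hz : ‖z‖ ≤ (p : ℝ) ^ (-β)) :
    ∃ f : ℕ → ℂ, f 1 = 1 ∧ (∀ m n : ℕ, 0 < m → 0 < n → f (m * n) = f m * f n) ∧
      (∃ C : ℝ, ∀ N : ℕ, 1 ≤ N → ‖∑ n ∈ Finset.Icc 1 N, f n‖ ≤ C * (N : ℝ) ^ (-β)) ∧ f p = z := by
  have hC : 0 ≤ C := by
    have := hS 1 le_rfl
    simp at this
    exact (norm_nonneg _).trans this
  have hα := prime_bound h1 hmul hγ.le hS hp
  have hα1 : ‖f₀ p‖ ≤ 1 := hα.trans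
    (Real.rpow_le_one_of_one_le_of_nonpos (by exact_mod_cast hp.one_le) (by linarith))
  refine ⟨cm (Function.update f₀ p z), cm_one _, fun m n hm hn => cm_mul _ hm hn, ?_, ?_⟩
  · obtain ⟨C', _, h⟩ := step_closed (f := f₀) (g := cm (Function.update f₀ p z)) hp.two_le (α := f₀ p) (a := z)
      (fun m hm => hmul p m hp.pos hm)
      (fun m hm => by rw [cm_mul _ hp.pos hm, cm_prime _ hp, Function.update_self])
      (fun n hn hpn => by
        rw [eq_cm h1 hmul n hn]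
        refine cm_congr (fun q _ hqn => ?_)
        have hne : q ≠ p := by
          rintro rfl
          exact hpn hqn
        rw [Function.update_of_ne hne])
      hβ hβγ hC hz hα1 hS
    exact ⟨C', h⟩
  · rw [cm_prime _ hp, Function.update_self]

/-- many primes, the open discs -/
theorem many_primes {f₀ : ℕ → ℂ} {C γ : ℝ} (hγ : 0 < γ) (h1 : f₀ 1 = 1)
    (hmul : ∀ m n : ℕ, 0 < m → 0 < n → f₀ (m * n) = f₀ m * f₀ n)
    (hS : ∀ N : ℕ, 1 ≤ N → ‖∑ n ∈ Finset.Icc 1 N, f₀ n‖ ≤ C * (N : ℝ) ^ (-γ))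
    {β : ℝ} (hβ : 0 < β) (hβγ : β < γ) (F : Set ℕ) (hF : ∀ p ∈ F, p.Prime)
    (hFs : Summable (fun p : F => ((p : ℕ) : ℝ) ^ (-(γ - β)))) (a : ℕ → ℂ)
    (ha : ∀ p ∈ F, ‖a p‖ < (p : ℝ) ^ (-β))
    (has : Summable (fun p : F => ‖a p‖ * ((p : ℕ) : ℝ) ^ β)) :
    ∃ f : ℕ → ℂ, f 1 = 1 ∧ (∀ m n : ℕ, 0 < m → 0 < n → f (m * n) = f m * f n) ∧
      (∃ C : ℝ, ∀ N : ℕ, 1 ≤ N → ‖∑ n ∈ Finset.Icc 1 N, f n‖ ≤ C * (N : ℝ) ^ (-β)) ∧
      (∀ p ∈ F, f p = a p) ∧ ∀ p : ℕ, p.Prime → p ∉ F → f p = f₀ p := by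
  classical
  have hC : 0 ≤ C := by
    have := hS 1 le_rfl
    simp at this
    exact (norm_nonneg _).trans this
  have hα : ∀ p : ℕ, p.Prime → ‖f₀ p‖ ≤ (p : ℝ) ^ (-γ) := fun p hp => prime_bound h1 hmul hγ.le hS hp
  set b : ℕ → ℂ := fun p => if p ∈ F then a p else f₀ p with hb
  have hpb : ∀ p : ℕ, p.Prime → (p : ℝ) ^ (-β) * (p : ℝ) ^ β = 1 := by
    intro p hp
    have : (0 : ℝ) < p := by exact_mod_cast hp.pos
    rw [← Real.rpow_add this]
    simp
  have hbnd : ∀ p : ℕ, p.Prime → ‖b p‖ * (p : ℝ) ^ β < 1 := by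
    intro p hp
    have hp0 : (0 : ℝ) < p := by exact_mod_cast hp.pos
    have hpβ : (0 : ℝ) < (p : ℝ) ^ β := Real.rpow_pos_of_pos hp0 _
    have hlt : ‖b p‖ < (p : ℝ) ^ (-β) := by
      by_cases hpF : p ∈ F
      · rw [hb]
        simp only [if_pos hpF]
        exact ha p hpF
      · rw [hb]
        simp only [if_neg hpF]
        exact (hα p hp).trans_lt (Real.rpow_lt_rpow_of_exponent_lt (by exact_mod_cast hp.one_lt) (by linarith))
    calc ‖b p‖ * (p : ℝ) ^ β < (p : ℝ) ^ (-β) * (p : ℝ) ^ β := by gcongr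
      _ = 1 := hpb p hp
  have hu : Summable (F.indicator (fun p : ℕ => ‖a p‖ * (p : ℝ) ^ β)) := by
    have := (summable_subtype_iff_indicator (f := fun p : ℕ => ‖a p‖ * (p : ℝ) ^ β) (s := F)).1 has
    exact this
  have hv : Summable (F.indicator (fun p : ℕ => (p : ℝ) ^ (-(γ - β)))) := by
    have := (summable_subtype_iff_indicator (f := fun p : ℕ => (p : ℝ) ^ (-(γ - β))) (s := F)).1 hFs
    exact this
  have hcost : Summable (cost f₀ b β) := by
    refine Summable.of_norm_bounded_eventually ((hu.add hv).mul_left 2) ?_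
    have hsmall := hu.tendsto_cofinite_zero.eventually (gt_mem_nhds (by norm_num : (0 : ℝ) < 1 / 2))
    filter_upwards [hsmall] with p hps
    rw [Real.norm_of_nonneg (cost_nonneg hbnd p)]
    unfold cost
    by_cases hp : p.Prime
    · rw [if_pos hp]
      have hp0 : (0 : ℝ) < p := by exact_mod_cast hp.pos
      have hpβ : (0 : ℝ) < (p : ℝ) ^ β := Real.rpow_pos_of_pos hp0 _
      by_cases hpF : p ∈ F
      · have e1 : b p = a p := by
          rw [hb]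
          simp only [if_pos hpF]
        rw [Set.indicator_of_mem hpF] at hps
        rw [Set.indicator_of_mem hpF, Set.indicator_of_mem hpF, e1]
        have h3 : ‖a p - f₀ p‖ * (p : ℝ) ^ β ≤ ‖a p‖ * (p : ℝ) ^ β + (p : ℝ) ^ (-(γ - β)) := by
          have h4 : (p : ℝ) ^ (-(γ - β)) = (p : ℝ) ^ (-γ) * (p : ℝ) ^ β := by
            rw [← Real.rpow_add hp0]
            congr 1
            ring
          rw [h4, ← add_mul]
          refine mul_le_mul_of_nonneg_right ?_ hpβ.le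
          exact (norm_sub_le _ _).trans (add_le_add le_rfl (hα p hp))
        rw [div_le_iff₀ (by linarith)]
        have h5 : 0 ≤ ‖a p‖ * (p : ℝ) ^ β + (p : ℝ) ^ (-(γ - β)) := by positivity
        nlinarith
      · have e1 : b p = f₀ p := by
          rw [hb]
          simp only [if_neg hpF]
        rw [e1, sub_self, norm_zero, zero_mul, zero_div, Set.indicator_of_notMem hpF,
          Set.indicator_of_notMem hpF]
        norm_num
    · rw [if_neg hp]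
      have i1 : 0 ≤ F.indicator (fun p : ℕ => ‖a p‖ * (p : ℝ) ^ β) p :=
        Set.indicator_nonneg (fun q _ => by positivity) p
      have i2 : 0 ≤ F.indicator (fun p : ℕ => (p : ℝ) ^ (-(γ - β))) p :=
        Set.indicator_nonneg (fun q _ => by positivity) p
      linarith
  -- the bound for `f₀` with the exponent `β`
  have hSβ : ∀ N : ℕ, 1 ≤ N → ‖S f₀ N‖ ≤ C * (N : ℝ) ^ (-β) := by
    intro N hN
    have hN1 : (1 : ℝ) ≤ N := by exact_mod_cast hN
    refine (hS N hN).trans ?_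
    exact mul_le_mul_of_nonneg_left (Real.rpow_le_rpow_of_exponent_le hN1 (by linarith)) hC
  refine ⟨cm b, cm_one b, fun m n hm hn => cm_mul b hm hn, ⟨C * (2 : ℝ) ^ β * Real.exp (∑' p, cost f₀ b β p), ?_⟩, ?_, ?_⟩
  · intro N hN
    have h := perturb h1 hmul hβ (by positivity) (shift hβ hC hSβ) hbnd hcost N
    refine h.trans ?_
    have hN0 : (0 : ℝ) < N := by exact_mod_cast hN
    have : ((N : ℝ) + 1) ^ (-β) ≤ (N : ℝ) ^ (-β) :=
      Real.rpow_le_rpow_of_nonpos hN0 (by linarith) (by linarith)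
    gcongr
  · intro p hpF
    rw [cm_prime b (hF p hpF), hb]
    simp only [if_pos hpF]
  · intro p hp hpF
    rw [cm_prime b hp, hb]
    simp only [if_neg hpF]

end Pool.Agent.J6H85.KS
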