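import Mathlib

/-!
# Changing the values of a completely multiplicative function at primes

If `f` is completely multiplicative with `|∑_{n ≤ N} f n| ≤ C (N+1)^(-β)` and `g` is completely multiplicative with
`∑_p |g p - f p| p^β / (1 - |g p| p^β) < ∞` and `|g p| p^β < 1`, then `|∑_{n ≤ N} g n| ≤ C' (N+1)^(-β)`.
-/

set_option autoImplicit false

namespace Pool.Agent.J6H85.KS

open Finset Filter Topology

/-- the partial sums -/
noncomputable def S (f : ℕ → ℂ) (N : ℕ) : ℂ := ∑ n ∈ Finset.Icc 1 N, f n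

/-- the completely multiplicative function with the values `b p` at the primes -/
noncomputable def cm (b : ℕ → ℂ) (n : ℕ) : ℂ := n.factorization.prod (fun p k => b p ^ k)

theorem cm_one (b : ℕ → ℂ) : cm b 1 = 1 := by
  simp [cm]

theorem cm_mul (b : ℕ → ℂ) {m n : ℕ} (hm : 0 < m) (hn : 0 < n) : cm b (m * n) = cm b m * cm b n := by
  unfold cm
  rw [Nat.factorization_mul hm.ne' hn.ne']
  exact Finsupp.prod_add_index' (fun p => pow_zero _) (fun p k l => pow_add _ _ _)

theorem cm_prime (b : ℕ → ℂ) {p : ℕ} (hp : p.Prime) : cm b p = b p := by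
  unfold cm
  rw [hp.factorization]
  have h : (Finsupp.single p 1).prod (fun p k => b p ^ k) = b p ^ 1 :=
    Finsupp.prod_single_index (h := fun p k => b p ^ k) (pow_zero _)
  rw [h, pow_one]

theorem cm_congr {b b' : ℕ → ℂ} {n : ℕ} (h : ∀ p, p.Prime → p ∣ n → b p = b' p) : cm b n = cm b' n := by
  unfold cm
  refine Finsupp.prod_congr (fun p hp => ?_)
  rw [h p (Nat.prime_of_mem_primeFactors (by simpa using hp)) (Nat.dvd_of_mem_primeFactors (by simpa using hp))]

theorem eq_cm {f : ℕ → ℂ} (h1 : f 1 = 1) (hmul : ∀ m n : ℕ, 0 < m → 0 < n → f (m * n) = f m * f n) :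
    ∀ n : ℕ, 0 < n → f n = cm f n := by
  intro n
  induction n using Nat.recOnMul with
  | zero => intro h; exact absurd h (lt_irrefl _)
  | one => intro _; rw [h1, cm_one]
  | prime p hp => intro _; rw [cm_prime f hp]
  | mul m n hm hn =>
    intro h
    have hm0 : 0 < m := Nat.pos_of_mul_pos_right h |> fun _ => Nat.pos_of_ne_zero (by rintro rfl; simp at h)
    have hn0 : 0 < n := Nat.pos_of_ne_zero (by rintro rfl; simp at h)
    rw [hmul m n hm0 hn0, cm_mul f hm0 hn0, hm hm0, hn hn0]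

theorem split {h : ℕ → ℂ} {c : ℂ} {p : ℕ} (hp : 0 < p) (hh : ∀ m, 0 < m → h (p * m) = c * h m) (N : ℕ) :
    S h N = c * S h (N / p) + ∑ n ∈ (Finset.Icc 1 N).filter (fun n => ¬ p ∣ n), h n := by
  have h1 : ∑ n ∈ (Finset.Icc 1 N).filter (fun n => p ∣ n), h n = c * S h (N / p) := by
    unfold S
    rw [Finset.mul_sum]
    symm
    refine Finset.sum_nbij' (fun m => p * m) (fun n => n / p) ?_ ?_ ?_ ?_ ?_
    · intro m hm
      rw [Finset.mem_Icc] at hm
      rw [Finset.mem_filter, Finset.mem_Icc]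
      refine ⟨⟨Nat.mul_pos hp hm.1, ?_⟩, dvd_mul_right _ _⟩
      calc p * m ≤ p * (N / p) := Nat.mul_le_mul_left _ hm.2
        _ ≤ N := Nat.mul_div_le N p
    · intro n hn
      rw [Finset.mem_filter, Finset.mem_Icc] at hn
      rw [Finset.mem_Icc]
      exact ⟨Nat.div_pos (Nat.le_of_dvd hn.1.1 hn.2) hp, Nat.div_le_div_right hn.1.2⟩
    · intro m hm
      exact Nat.mul_div_cancel_left m hp
    · intro n hn
      rw [Finset.mem_filter] at hn
      exact Nat.mul_div_cancel' hn.2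
    · intro m hm
      rw [Finset.mem_Icc] at hm
      exact (hh m hm.1).symm
  rw [← h1]
  unfold S
  exact (Finset.sum_filter_add_sum_filter_not (Finset.Icc 1 N) (fun n => p ∣ n) h).symm

theorem pow_step {p N : ℕ} (hp : 0 < p) {β : ℝ} (hβ : 0 < β) :
    (((N / p : ℕ) : ℝ) + 1) ^ (-β) ≤ (p : ℝ) ^ β * ((N : ℝ) + 1) ^ (-β) := by
  have hp' : (0 : ℝ) < p := by exact_mod_cast hp
  have hN : (0 : ℝ) < (N : ℝ) + 1 := by positivity
  have h1 : ((N : ℝ) + 1) / p ≤ ((N / p : ℕ) : ℝ) + 1 := by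
    rw [div_le_iff₀ hp']
    have h2 : N + 1 ≤ (N / p + 1) * p := by
      have := Nat.lt_succ_self (N / p)
      have h3 : N < (N / p + 1) * p := (Nat.div_lt_iff_lt_mul hp).1 this
      omega
    exact_mod_cast h2
  calc (((N / p : ℕ) : ℝ) + 1) ^ (-β) ≤ (((N : ℝ) + 1) / p) ^ (-β) :=
        Real.rpow_le_rpow_of_nonpos (by positivity) h1 (by linarith)
    _ = (p : ℝ) ^ β * ((N : ℝ) + 1) ^ (-β) := by
        rw [Real.div_rpow hN.le hp'.le, Real.rpow_neg hp'.le, div_inv_eq_mul, mul_comm]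

/-- changing the value at one prime -/
theorem step {f g : ℕ → ℂ} {p : ℕ} (hp : 2 ≤ p) {α a : ℂ} (hf : ∀ m, 0 < m → f (p * m) = α * f m)
    (hg : ∀ m, 0 < m → g (p * m) = a * g m) (hfg : ∀ n, 0 < n → ¬ p ∣ n → g n = f n) {C β : ℝ} (hβ : 0 < β)
    (hC : 0 ≤ C) (ha : ‖a‖ * (p : ℝ) ^ β < 1) (hS : ∀ N : ℕ, ‖S f N‖ ≤ C * ((N : ℝ) + 1) ^ (-β)) (N : ℕ) :
    ‖S g N‖ ≤ C * (1 + ‖a - α‖ * (p : ℝ) ^ β / (1 - ‖a‖ * (p : ℝ) ^ β)) * ((N : ℝ) + 1) ^ (-β) := by
  have hp0 : 0 < p := by omega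
  have hpp : (0 : ℝ) < (p : ℝ) ^ β := Real.rpow_pos_of_pos (by exact_mod_cast hp0) _
  have hd : 0 < 1 - ‖a‖ * (p : ℝ) ^ β := by linarith
  set L : ℝ := C * (‖a - α‖ * (p : ℝ) ^ β / (1 - ‖a‖ * (p : ℝ) ^ β)) with hL
  have hL0 : 0 ≤ L := by positivity
  have hLe : ‖a‖ * (p : ℝ) ^ β * L + C * (‖a - α‖ * (p : ℝ) ^ β) = L := by
    rw [hL]
    field_simp
    ring
  have hD : ∀ N : ℕ, ‖S g N - S f N‖ ≤ L * ((N : ℝ) + 1) ^ (-β) := by
    intro N
    induction N using Nat.strong_induction_on with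
    | _ N ih =>
      rcases Nat.eq_zero_or_pos N with h0 | h0
      · subst h0
        simp [S]
        exact hL0
      · have hlt : N / p < N := Nat.div_lt_self h0 (by omega)
        have e : S g N - S f N = a * (S g (N / p) - S f (N / p)) + (a - α) * S f (N / p) := by
          rw [split hp0 hg N, split hp0 hf N]
          have : ∑ n ∈ (Finset.Icc 1 N).filter (fun n => ¬ p ∣ n), g n =
              ∑ n ∈ (Finset.Icc 1 N).filter (fun n => ¬ p ∣ n), f n := by
            refine Finset.sum_congr rfl (fun n hn => ?_)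
            rw [Finset.mem_filter, Finset.mem_Icc] at hn
            exact hfg n hn.1.1 hn.2
          rw [this]
          ring
        have hstep := pow_step (N := N) hp0 hβ
        have hN1 : (0 : ℝ) < ((N : ℝ) + 1) ^ (-β) := Real.rpow_pos_of_pos (by positivity) _
        rw [e]
        calc ‖a * (S g (N / p) - S f (N / p)) + (a - α) * S f (N / p)‖
            ≤ ‖a‖ * ‖S g (N / p) - S f (N / p)‖ + ‖a - α‖ * ‖S f (N / p)‖ := by
              refine (norm_add_le _ _).trans ?_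
              rw [norm_mul, norm_mul]
          _ ≤ ‖a‖ * (L * (((N / p : ℕ) : ℝ) + 1) ^ (-β)) + ‖a - α‖ * (C * (((N / p : ℕ) : ℝ) + 1) ^ (-β)) := by
              gcongr
              · exact ih _ hlt
              · exact hS _
          _ ≤ ‖a‖ * (L * ((p : ℝ) ^ β * ((N : ℝ) + 1) ^ (-β))) + ‖a - α‖ * (C * ((p : ℝ) ^ β * ((N : ℝ) + 1) ^ (-β))) := by
              gcongr
          _ = (‖a‖ * (p : ℝ) ^ β * L + C * (‖a - α‖ * (p : ℝ) ^ β)) * ((N : ℝ) + 1) ^ (-β) := by ring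
          _ = L * ((N : ℝ) + 1) ^ (-β) := by rw [hLe]
  calc ‖S g N‖ = ‖S f N + (S g N - S f N)‖ := by congr 1; ring
    _ ≤ C * ((N : ℝ) + 1) ^ (-β) + L * ((N : ℝ) + 1) ^ (-β) := (norm_add_le _ _).trans (add_le_add (hS N) (hD N))
    _ = C * (1 + ‖a - α‖ * (p : ℝ) ^ β / (1 - ‖a‖ * (p : ℝ) ^ β)) * ((N : ℝ) + 1) ^ (-β) := by rw [hL]; ring

/-- the cost of the change at `p` -/
noncomputable def cost (f b : ℕ → ℂ) (β : ℝ) (p : ℕ) : ℝ :=
  if p.Prime then ‖b p - f p‖ * (p : ℝ) ^ β / (1 - ‖b p‖ * (p : ℝ) ^ β) else 0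

theorem cost_nonneg {f b : ℕ → ℂ} {β : ℝ} (hb : ∀ p : ℕ, p.Prime → ‖b p‖ * (p : ℝ) ^ β < 1) (p : ℕ) :
    0 ≤ cost f b β p := by
  unfold cost
  split_ifs with hp
  · have := hb p hp
    have h : 0 < 1 - ‖b p‖ * (p : ℝ) ^ β := by linarith
    positivity
  · exact le_rfl

/-- **Perturbation theorem.** -/
theorem perturb {f b : ℕ → ℂ} {C β : ℝ} (h1 : f 1 = 1)
    (hmul : ∀ m n : ℕ, 0 < m → 0 < n → f (m * n) = f m * f n) (hβ : 0 < β) (hC : 0 ≤ C)
    (hS : ∀ N : ℕ, ‖S f N‖ ≤ C * ((N : ℝ) + 1) ^ (-β))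
    (hb : ∀ p : ℕ, p.Prime → ‖b p‖ * (p : ℝ) ^ β < 1) (hs : Summable (cost f b β)) (N : ℕ) :
    ‖S (cm b) N‖ ≤ C * Real.exp (∑' p, cost f b β p) * ((N : ℝ) + 1) ^ (-β) := by
  -- modify the values at the primes below `k`
  have hk : ∀ k : ℕ, ∀ N : ℕ, ‖S (cm (fun p => if p < k then b p else f p)) N‖ ≤
      C * Real.exp (∑ p ∈ Finset.range k, cost f b β p) * ((N : ℝ) + 1) ^ (-β) := by
    intro k
    induction k with
    | zero =>
      intro N
      have : S (cm (fun p => if p < 0 then b p else f p)) N = S f N := by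
        unfold S
        refine Finset.sum_congr rfl (fun n hn => ?_)
        rw [Finset.mem_Icc] at hn
        rw [eq_cm h1 hmul n hn.1]
        exact cm_congr (fun p _ _ => by simp)
      rw [this]
      simpa using hS N
    | succ k ih =>
      by_cases hkp : k.Prime
      · intro N
        have hst := step (f := cm (fun p => if p < k then b p else f p))
          (g := cm (fun p => if p < k + 1 then b p else f p)) (p := k) hkp.two_le (α := f k) (a := b k)
          (by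
            intro m hm
            rw [cm_mul _ hkp.pos hm, cm_prime _ hkp]
            simp)
          (by
            intro m hm
            rw [cm_mul _ hkp.pos hm, cm_prime _ hkp]
            simp)
          (by
            intro n hn hkn
            refine cm_congr (fun p hp hpn => ?_)
            have hne : p ≠ k := by
              rintro rfl
              exact hkn hpn
            by_cases hlt : p < k
            · rw [if_pos hlt, if_pos (by omega)]
            · rw [if_neg hlt, if_neg (by omega)])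
          hβ (by positivity) (hb k hkp) ih N
        refine hst.trans ?_
        have hc : cost f b β k = ‖b k - f k‖ * (k : ℝ) ^ β / (1 - ‖b k‖ * (k : ℝ) ^ β) := by
          unfold cost
          rw [if_pos hkp]
        rw [← hc, Finset.sum_range_succ, Real.exp_add, ← mul_assoc]
        have hN1 : (0 : ℝ) < ((N : ℝ) + 1) ^ (-β) := Real.rpow_pos_of_pos (by positivity) _
        gcongr
        rw [add_comm]
        exact Real.add_one_le_exp _
      · intro N
        have : S (cm (fun p => if p < k + 1 then b p else f p)) N = S (cm (fun p => if p < k then b p else f p)) N := by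
          unfold S
          refine Finset.sum_congr rfl (fun n hn => ?_)
          refine cm_congr (fun p hp _ => ?_)
          have hne : p ≠ k := by
            rintro rfl
            exact hkp hp
          by_cases hlt : p < k
          · rw [if_pos hlt, if_pos (by omega)]
          · rw [if_neg hlt, if_neg (by omega)]
        rw [this]
        refine (ih N).trans ?_
        have hN1 : (0 : ℝ) < ((N : ℝ) + 1) ^ (-β) := Real.rpow_pos_of_pos (by positivity) _
        have hle : ∑ p ∈ Finset.range k, cost f b β p ≤ ∑ p ∈ Finset.range (k + 1), cost f b β p := by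
          rw [Finset.sum_range_succ]
          linarith [cost_nonneg (f := f) hb k]
        have hexp := Real.exp_le_exp.2 hle
        gcongr
  have h2 : S (cm b) N = S (cm (fun p => if p < N + 1 then b p else f p)) N := by
    unfold S
    refine Finset.sum_congr rfl (fun n hn => ?_)
    rw [Finset.mem_Icc] at hn
    refine cm_congr (fun p hp hpn => ?_)
    have := Nat.le_of_dvd hn.1 hpn
    rw [if_pos (by omega)]
  rw [h2]
  refine (hk (N + 1) N).trans ?_
  have hN1 : (0 : ℝ) < ((N : ℝ) + 1) ^ (-β) := Real.rpow_pos_of_pos (by positivity) _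
  gcongr
  exact hs.sum_le_tsum _ (fun p _ => cost_nonneg hb p)

/-- a completely multiplicative function with `S_f(N) = O(N^(-β))` has `|f p| ≤ p^(-β)` -/
theorem prime_bound {f : ℕ → ℂ} {C β : ℝ} (h1 : f 1 = 1)
    (hmul : ∀ m n : ℕ, 0 < m → 0 < n → f (m * n) = f m * f n) (hβ : 0 ≤ β)
    (hS : ∀ N : ℕ, 1 ≤ N → ‖∑ n ∈ Finset.Icc 1 N, f n‖ ≤ C * (N : ℝ) ^ (-β)) {p : ℕ} (hp : p.Prime) :
    ‖f p‖ ≤ (p : ℝ) ^ (-β) := by
  have hp0 : (0 : ℝ) < p := by exact_mod_cast hp.pos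
  have hC : 0 ≤ C := by
    have := hS 1 le_rfl
    simp at this
    exact (norm_nonneg _).trans this
  have hpow : ∀ k : ℕ, f (p ^ k) = f p ^ k := by
    intro k
    induction k with
    | zero => simpa using h1
    | succ k ih => rw [pow_succ, hmul _ _ (pow_pos hp.pos k) hp.pos, ih, pow_succ]
  -- `‖f(p)^k‖ ≤ 2 C (p^k - 1)^(-β)`
  have hb : ∀ k : ℕ, 1 ≤ k → (‖f p‖ * (p : ℝ) ^ β) ^ k ≤ C * (1 + (2 : ℝ) ^ β) := by
    intro k hk
    have h2 : 2 ≤ p ^ k := hp.two_le.trans (Nat.le_self_pow (by omega) p)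
    have e : f (p ^ k) = (∑ n ∈ Finset.Icc 1 (p ^ k), f n) - ∑ n ∈ Finset.Icc 1 (p ^ k - 1), f n := by
      obtain ⟨m, hm⟩ : ∃ m, p ^ k = m + 1 := ⟨p ^ k - 1, by omega⟩
      rw [hm, Finset.sum_Icc_succ_top (by omega)]
      simp
    have h3 : ‖f (p ^ k)‖ ≤ C * ((p ^ k : ℕ) : ℝ) ^ (-β) + C * ((p ^ k - 1 : ℕ) : ℝ) ^ (-β) := by
      rw [e]
      exact (norm_sub_le _ _).trans (add_le_add (hS _ (by omega)) (hS _ (by omega)))
    have hpk : (0 : ℝ) < (p : ℝ) ^ k := by positivity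
    have h4 : ((p ^ k - 1 : ℕ) : ℝ) ^ (-β) ≤ (2 : ℝ) ^ β * ((p : ℝ) ^ k) ^ (-β) := by
      have h5 : (p : ℝ) ^ k / 2 ≤ ((p ^ k - 1 : ℕ) : ℝ) := by
        rw [Nat.cast_sub (by omega)]
        push_cast
        have : (2 : ℝ) ≤ (p : ℝ) ^ k := by exact_mod_cast h2
        linarith
      calc ((p ^ k - 1 : ℕ) : ℝ) ^ (-β) ≤ ((p : ℝ) ^ k / 2) ^ (-β) :=
            Real.rpow_le_rpow_of_nonpos (by positivity) h5 (by linarith)
        _ = (2 : ℝ) ^ β * ((p : ℝ) ^ k) ^ (-β) := by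
            rw [Real.div_rpow hpk.le (by norm_num), Real.rpow_neg (by norm_num : (0 : ℝ) ≤ 2), div_inv_eq_mul, mul_comm]
    rw [hpow, norm_pow] at h3
    have h6 : ‖f p‖ ^ k ≤ C * (1 + (2 : ℝ) ^ β) * ((p : ℝ) ^ k) ^ (-β) := by
      refine h3.trans ?_
      push_cast
      have := mul_le_mul_of_nonneg_left h4 hC
      linarith
    have h7 : ((p : ℝ) ^ β) ^ k = ((p : ℝ) ^ k) ^ β := by
      rw [← Real.rpow_natCast, ← Real.rpow_mul hp0.le, ← Real.rpow_natCast, ← Real.rpow_mul hp0.le, mul_comm]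
    rw [mul_pow, h7]
    have h8 : ((p : ℝ) ^ k) ^ (-β) * ((p : ℝ) ^ k) ^ β = 1 := by
      rw [← Real.rpow_add hpk]
      simp
    calc ‖f p‖ ^ k * ((p : ℝ) ^ k) ^ β ≤ C * (1 + (2 : ℝ) ^ β) * ((p : ℝ) ^ k) ^ (-β) * ((p : ℝ) ^ k) ^ β := by
          gcongr
      _ = C * (1 + (2 : ℝ) ^ β) := by rw [mul_assoc, h8, mul_one]
  by_contra hcon
  push Not at hcon
  have hgt : 1 < ‖f p‖ * (p : ℝ) ^ β := by
    have h9 : (p : ℝ) ^ (-β) * (p : ℝ) ^ β = 1 := by
      rw [← Real.rpow_add hp0]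
      simp
    rw [← h9]
    have : (0 : ℝ) < (p : ℝ) ^ β := Real.rpow_pos_of_pos hp0 _
    gcongr
  have htop := tendsto_pow_atTop_atTop_of_one_lt hgt
  obtain ⟨k, hk⟩ := (htop.eventually_gt_atTop (C * (1 + (2 : ℝ) ^ β))).and (eventually_ge_atTop 1) |>.exists
  exact absurd (hb k hk.2) (not_le.2 hk.1)

end Pool.Agent.J6H85.KS

namespace Pool.Agent.J6H85.KS

open Finset Filter Topology

/-- changing the value at one prime to a value of the closed disc, with a loss in the exponent -/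
theorem step_closed {f g : ℕ → ℂ} {p : ℕ} (hp : 2 ≤ p) {α a : ℂ} (hf : ∀ m, 0 < m → f (p * m) = α * f m)
    (hg : ∀ m, 0 < m → g (p * m) = a * g m) (hfg : ∀ n, 0 < n → ¬ p ∣ n → g n = f n) {C β β' : ℝ} (hβ : 0 < β)
    (hββ : β < β') (hC : 0 ≤ C) (ha : ‖a‖ ≤ (p : ℝ) ^ (-β)) (hα : ‖α‖ ≤ 1)
    (hS : ∀ N : ℕ, 1 ≤ N → ‖S f N‖ ≤ C * (N : ℝ) ^ (-β')) :
    ∃ C' : ℝ, 0 ≤ C' ∧ ∀ N : ℕ, 1 ≤ N → ‖S g N‖ ≤ C' * (N : ℝ) ^ (-β) := by
  have hp0 : 0 < p := by omega
  have hpr : (0 : ℝ) < p := by exact_mod_cast hp0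
  have hp1 : (1 : ℝ) < p := by exact_mod_cast hp
  have ha1 : ‖a‖ ≤ 1 := by
    refine ha.trans ?_
    exact Real.rpow_le_one_of_one_le_of_nonpos hp1.le (by linarith)
  -- bound in terms of `k = log_p N`
  have hSk : ∀ N : ℕ, 1 ≤ N → ‖S f N‖ ≤ C * ((p : ℝ) ^ (-β')) ^ (Nat.log p N) := by
    intro N hN
    refine (hS N hN).trans ?_
    have h1 : ((p : ℝ) ^ (Nat.log p N)) ≤ N := by exact_mod_cast Nat.pow_log_le_self p (by omega)
    have h2 : (N : ℝ) ^ (-β') ≤ ((p : ℝ) ^ (Nat.log p N)) ^ (-β') :=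
      Real.rpow_le_rpow_of_nonpos (by positivity) h1 (by linarith)
    have h3 : ((p : ℝ) ^ (Nat.log p N)) ^ (-β') = ((p : ℝ) ^ (-β')) ^ (Nat.log p N) := by
      rw [← Real.rpow_natCast, ← Real.rpow_mul hpr.le, ← Real.rpow_natCast, ← Real.rpow_mul hpr.le, mul_comm]
    rw [← h3]
    gcongr
  set r : ℝ := (p : ℝ) ^ (-(β' - β)) with hr
  have hr0 : 0 < r := Real.rpow_pos_of_pos hpr _
  have hr1 : r < 1 := Real.rpow_lt_one_of_one_lt_of_neg hp1 (by linarith)
  set E : ℝ := 2 * C * (p : ℝ) ^ β with hE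
  have hE0 : 0 ≤ E := by positivity
  have hD : ∀ k : ℕ, ∀ N : ℕ, 1 ≤ N → Nat.log p N = k →
      ‖S g N - S f N‖ ≤ ((p : ℝ) ^ (-β)) ^ k * (E * ∑ i ∈ Finset.range k, r ^ i) := by
    intro k
    induction k with
    | zero =>
      intro N hN hlog
      have hNp : N < p := by
        rcases Nat.log_eq_zero_iff.1 hlog with h | h
        · exact h
        · omega
      have e : S g N = S f N := by
        unfold S
        refine Finset.sum_congr rfl (fun n hn => ?_)
        rw [Finset.mem_Icc] at hn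
        exact hfg n hn.1 (fun hd => by have := Nat.le_of_dvd hn.1 hd; omega)
      rw [e]
      simp
    | succ k ih =>
      intro N hN hlog
      have hlog' : Nat.log p (N / p) = k := by
        rw [Nat.log_div_base, hlog]
        rfl
      have hpN : p ≤ N := by
        by_contra hcon
        push Not at hcon
        rw [Nat.log_of_lt hcon] at hlog
        omega
      have hdiv : 1 ≤ N / p := Nat.div_pos hpN hp0
      have e : S g N - S f N = a * (S g (N / p) - S f (N / p)) + (a - α) * S f (N / p) := by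
        rw [split hp0 hg N, split hp0 hf N]
        have : ∑ n ∈ (Finset.Icc 1 N).filter (fun n => ¬ p ∣ n), g n =
            ∑ n ∈ (Finset.Icc 1 N).filter (fun n => ¬ p ∣ n), f n := by
          refine Finset.sum_congr rfl (fun n hn => ?_)
          rw [Finset.mem_filter, Finset.mem_Icc] at hn
          exact hfg n hn.1.1 hn.2
        rw [this]
        ring
      have h1 := ih (N / p) hdiv hlog'
      have h2 := hSk (N / p) hdiv
      rw [hlog'] at h2
      have h3 : ‖a - α‖ ≤ 2 := (norm_sub_le _ _).trans (by linarith)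
      have hq : ((p : ℝ) ^ (-β')) ^ k = ((p : ℝ) ^ (-β)) ^ k * r ^ k := by
        rw [← mul_pow, hr, ← Real.rpow_add hpr]
        congr 2
        ring
      have hpb : (p : ℝ) ^ (-β) * (p : ℝ) ^ β = 1 := by
        rw [← Real.rpow_add hpr]
        simp
      rw [e]
      have hsum0 : 0 ≤ ∑ i ∈ Finset.range k, r ^ i := Finset.sum_nonneg (fun i _ => by positivity)
      calc ‖a * (S g (N / p) - S f (N / p)) + (a - α) * S f (N / p)‖
          ≤ ‖a‖ * ‖S g (N / p) - S f (N / p)‖ + ‖a - α‖ * ‖S f (N / p)‖ := by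
            refine (norm_add_le _ _).trans ?_
            rw [norm_mul, norm_mul]
        _ ≤ (p : ℝ) ^ (-β) * (((p : ℝ) ^ (-β)) ^ k * (E * ∑ i ∈ Finset.range k, r ^ i)) +
              2 * (C * ((p : ℝ) ^ (-β')) ^ k) := by gcongr
        _ = ((p : ℝ) ^ (-β)) ^ (k + 1) * (E * ∑ i ∈ Finset.range (k + 1), r ^ i) := by
            rw [Finset.sum_range_succ, hq, hE, pow_succ]
            have : 2 * (C * (((p : ℝ) ^ (-β)) ^ k * r ^ k)) =
                ((p : ℝ) ^ (-β)) ^ k * ((p : ℝ) ^ (-β) * (p : ℝ) ^ β) * (2 * C * r ^ k) := by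
              rw [hpb]; ring
            rw [this]
            ring
  have hgeo : ∀ k : ℕ, ∑ i ∈ Finset.range k, r ^ i ≤ (1 - r)⁻¹ := by
    intro k
    have := (summable_geometric_of_lt_one hr0.le hr1).sum_le_tsum (Finset.range k) (fun i _ => by positivity)
    rwa [tsum_geometric_of_lt_one hr0.le hr1] at this
  refine ⟨C + (p : ℝ) ^ β * (E * (1 - r)⁻¹), ?_, fun N hN => ?_⟩
  · have : 0 < (1 - r)⁻¹ := inv_pos.2 (by linarith)
    positivity
  · have hNr : (0 : ℝ) < N := by exact_mod_cast hN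
    have hN1 : (1 : ℝ) ≤ N := by exact_mod_cast hN
    have h1 := hD _ N hN rfl
    have h2 := hS N hN
    have h3 : (N : ℝ) ^ (-β') ≤ (N : ℝ) ^ (-β) := Real.rpow_le_rpow_of_exponent_le hN1 (by linarith)
    have h4 : ((p : ℝ) ^ (-β)) ^ (Nat.log p N) ≤ (p : ℝ) ^ β * (N : ℝ) ^ (-β) := by
      have h5 : (N : ℝ) < (p : ℝ) ^ (Nat.log p N) * p := by
        have := Nat.lt_pow_succ_log_self (b := p) (by omega) N
        rw [Nat.pow_succ] at this
        exact_mod_cast this
      have h6 : (N : ℝ) / p ≤ (p : ℝ) ^ (Nat.log p N) := by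
        rw [div_le_iff₀ hpr]
        exact h5.le
      calc ((p : ℝ) ^ (-β)) ^ (Nat.log p N) = ((p : ℝ) ^ (Nat.log p N)) ^ (-β) := by
            rw [← Real.rpow_natCast, ← Real.rpow_mul hpr.le, ← Real.rpow_natCast, ← Real.rpow_mul hpr.le, mul_comm]
        _ ≤ ((N : ℝ) / p) ^ (-β) := Real.rpow_le_rpow_of_nonpos (by positivity) h6 (by linarith)
        _ = (p : ℝ) ^ β * (N : ℝ) ^ (-β) := by
            rw [Real.div_rpow hNr.le hpr.le, Real.rpow_neg hpr.le, div_inv_eq_mul, mul_comm]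
    have h7 : E * ∑ i ∈ Finset.range (Nat.log p N), r ^ i ≤ E * (1 - r)⁻¹ := by
      gcongr
      exact hgeo _
    have h8 : 0 ≤ E * ∑ i ∈ Finset.range (Nat.log p N), r ^ i :=
      mul_nonneg hE0 (Finset.sum_nonneg (fun i _ => by positivity))
    calc ‖S g N‖ = ‖S f N + (S g N - S f N)‖ := by congr 1; ring
      _ ≤ C * (N : ℝ) ^ (-β) + ((p : ℝ) ^ β * (N : ℝ) ^ (-β)) * (E * (1 - r)⁻¹) := by
          refine (norm_add_le _ _).trans (add_le_add (h2.trans (by gcongr)) (h1.trans ?_))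
          gcongr
      _ = (C + (p : ℝ) ^ β * (E * (1 - r)⁻¹)) * (N : ℝ) ^ (-β) := by ring

end Pool.Agent.J6H85.KS
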